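import Pool.Agent.MVO.StmtsC

set_option autoImplicit false

namespace Pool.Agent.MVO.H16

open Pool.Agent.Helper14_MV Pool.Agent.Helper2_MV Pool.Agent.MVO

theorem rr_trans {β : FIC} {l l' l'' : List ℕ} (h : RR β l l') (h' : RR β l' l'') :
    RR β l l'' := β.trans h h'

/-- the substitution -/
def gg (x y : ℕ) (m : List ℕ) (i : ℕ) : List ℕ :=
  if i = 0 then [x] else if i = 3 then [y] else if i = 2 then m else []

/-- **Row APC**. -/
theorem apc (hSGC : SgcStmt) : ApcStmt := by
  intro β hβ p q x y m hx hm
  induction m, hm using Nat.le_induction generalizing p with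
  | base =>
    obtain ⟨p1, p2, rfl⟩ := List.append_of_mem hx
    have h1 : RR β [0, 2, 0, 3, 3] [0, 2, 3, 3, 0] := hβ.A
    have h2 := (RR.refl (β := β) p1).append ((h1.sub (gg x y p2)).append (RR.refl q))
    simpa [gg, List.replicate] using h2
  | succ m hm ih =>
    have h1 := (hSGC β hβ.cc p (List.replicate m y ++ q) x y).1 hx (by
      rw [List.mem_append, List.mem_replicate]
      exact Or.inl ⟨by omega, rfl⟩)
    have h2 := ih (p ++ [y]) (by
      rw [List.mem_append]
      exact Or.inl hx)
    have e1 : p ++ x :: (List.replicate (m + 1) y ++ q)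
        = p ++ x :: y :: (List.replicate m y ++ q) := by
      rw [List.replicate_succ, List.cons_append]
    have e2 : p ++ y :: x :: (List.replicate m y ++ q)
        = p ++ [y] ++ x :: (List.replicate m y ++ q) := by
      rw [List.append_assoc, List.singleton_append]
    have e3 : p ++ [y] ++ List.replicate m y ++ x :: q
        = p ++ List.replicate (m + 1) y ++ x :: q := by
      rw [List.replicate_succ, List.append_assoc p [y], List.singleton_append]
    rw [e1]
    refine rr_trans h1 ?_
    rw [e2, ← e3]
    exact h2

end Pool.Agent.MVO.H16
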