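import Pool.Agent.MVO.StmtsV

/-! Squad MVO, row GAV: gathering all blocks in class Va (adaptation of row GAC of helper82). -/

set_option autoImplicit false

namespace Pool.Agent.MVO.H16

open Pool.Agent.Helper14_MV Pool.Agent.Helper2_MV Pool.Agent.MVO

theorem count_gb_gav (n : ℕ → ℕ) (c : ℕ) : ∀ D : List ℕ, D.Nodup → c ∈ D → (gb n D).count c = n c := by
  intro D
  induction D with
  | nil => intro _ h; simp at h
  | cons a D ih =>
    intro hnd hc
    have h1 : gb n (a :: D) = List.replicate (n a) a ++ gb n D := by
      unfold gb
      rw [List.flatMap_cons]
    rw [h1, List.count_append]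
    rw [List.nodup_cons] at hnd
    by_cases hac : c = a
    · subst hac
      have h2 : (gb n D).count c = 0 := by
        rw [List.count_eq_zero]
        intro h3
        unfold gb at h3
        rw [List.mem_flatMap] at h3
        obtain ⟨d, hd, hcd⟩ := h3
        rw [List.mem_replicate] at hcd
        rw [hcd.2] at hnd
        exact hnd.1 hd
      rw [h2, List.count_replicate_self, add_zero]
    · have h4 : c ∈ D := by
        rcases List.mem_cons.1 hc with h | h
        · exact absurd h hac
        · exact h
      rw [ih hnd.2 h4]
      have h5 : (List.replicate (n a) a).count c = 0 := by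
        rw [List.count_eq_zero]
        intro h6
        exact hac (List.mem_replicate.1 h6).2
      rw [h5, zero_add]

theorem gb_append_gav (n : ℕ → ℕ) (D E : List ℕ) : gb n (D ++ E) = gb n D ++ gb n E := by
  unfold gb
  rw [List.flatMap_append]

theorem gb_zero_gav (n : ℕ → ℕ) (E : List ℕ) (h : ∀ c ∈ E, n c = 0) : gb n E = [] := by
  unfold gb
  rw [List.flatMap_eq_nil_iff]
  intro c hc
  rw [h c hc]
  rfl

theorem rr_trans_gav {β : FIC} {l m n : List ℕ} (h : RR β l m) (h' : RR β m n) : RR β l n :=
  β.trans h h'

theorem gav (gbv : GbvStmt) : GavStmt := by
  intro β hβ k B X hB hX hns hBX hmult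
  have key : ∀ s ≤ k + 1, ∃ D : ℕ → List ℕ, (∀ j, (D j).Perm X) ∧
      RR β (asm k B)
        (asm k (fun j => if j < s then gb (fun c => (B j).count c) (D j) else B j)) := by
    intro s
    induction s with
    | zero =>
      intro _
      refine ⟨fun _ => X, fun _ => List.Perm.refl X, ?_⟩
      rw [asm_congr (B := fun j => if j < 0 then gb (fun c => (B j).count c) X else B j)
        (B' := B) (fun j _ => if_neg (Nat.not_lt_zero j))]
      exact RR.refl _
    | succ s ih =>
      intro hs
      obtain ⟨D, hD, hR⟩ := ih (by omega)
      have hsk : s ≤ k := by omega
      set B' : ℕ → List ℕ :=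
        fun j => if j < s then gb (fun c => (B j).count c) (D j) else B j with hB'
      have hBs : B' s = B s := if_neg (lt_irrefl s)
      have hcount : ∀ c ∈ B s, 2 ≤ (pre B' s ++ B s ++ suf B' s (k - s)).count c := by
        intro c hc
        have hcX : c ∈ X := hBX s hsk c hc
        have h1 : pre B' s ++ B s ++ suf B' s (k - s) = asm k B' := by
          rw [asm_split hsk B', hBs]
        rw [h1, count_asm (hns c hcX)]
        have h2 : deg k (fun j => (B' j).count c) = deg k (fun j => (B j).count c) := by
          unfold deg
          refine Finset.sum_congr rfl fun j _ => ?_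
          show (if j < s then gb (fun c => (B j).count c) (D j) else B j).count c =
            (B j).count c
          by_cases hj : j < s
          · rw [if_pos hj]
            have hnd : (D j).Nodup := (hD j).nodup_iff.2 hX
            exact count_gb_gav _ c (D j) hnd ((hD j).mem_iff.2 hcX)
          · rw [if_neg hj]
        rw [h2]
        exact hmult c hcX
      obtain ⟨D0, hnd0, hmem0, hR0⟩ : ∃ D : List ℕ, D.Nodup ∧ (∀ c, c ∈ D ↔ c ∈ B s) ∧
          RR β (pre B' s ++ B s ++ suf B' s (k - s))
            (pre B' s ++ gb (fun c => (B s).count c) D ++ suf B' s (k - s)) :=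
        ⟨(B s).dedup, List.nodup_dedup _, fun c => List.mem_dedup,
          gbv β hβ (B s) (pre B' s) (suf B' s (k - s)) hcount⟩
      set E : List ℕ := X.filter (fun c => decide (c ∉ D0)) with hE
      refine ⟨Function.update D s (D0 ++ E), ?_, ?_⟩
      · intro j
        by_cases hj : j = s
        · subst hj
          rw [Function.update_self]
          have hnd : (D0 ++ E).Nodup := by
            rw [List.nodup_append]
            refine ⟨hnd0, hX.filter _, ?_⟩
            intro a ha b hb hab
            rw [hE, List.mem_filter] at hb
            rw [← hab] at hb
            exact (of_decide_eq_true hb.2) ha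
          rw [List.perm_ext_iff_of_nodup hnd hX]
          intro a
          rw [List.mem_append, hE, List.mem_filter]
          constructor
          · rintro (h | h)
            · exact hBX j hsk a ((hmem0 a).1 h)
            · exact h.1
          · intro h
            by_cases ha : a ∈ D0
            · exact Or.inl ha
            · exact Or.inr ⟨h, decide_eq_true ha⟩
        · rw [Function.update_of_ne hj]
          exact hD j
      · refine rr_trans_gav hR ?_
        have h3 : asm k B' = pre B' s ++ B s ++ suf B' s (k - s) := by
          rw [asm_split hsk B', hBs]
        rw [h3]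
        refine rr_trans_gav hR0 ?_
        have hgb : gb (fun c => (B s).count c) (D0 ++ E) =
            gb (fun c => (B s).count c) D0 := by
          rw [gb_append_gav, gb_zero_gav _ E, List.append_nil]
          intro c hc
          rw [hE, List.mem_filter] at hc
          have h4 : c ∉ D0 := of_decide_eq_true hc.2
          exact List.count_eq_zero.2 fun h5 => h4 ((hmem0 c).2 h5)
        rw [← hgb, ← asm_update hsk B']
        rw [asm_congr (B := Function.update B' s (gb (fun c => (B s).count c) (D0 ++ E)))
          (B' := fun j => if j < s + 1 then
            gb (fun c => (B j).count c) (Function.update D s (D0 ++ E) j) else B j) ?_]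
        · exact RR.refl _
        · intro j _
          by_cases hj : j = s
          · subst hj
            rw [Function.update_self, Function.update_self, if_pos (Nat.lt_succ_self j)]
          · rw [Function.update_of_ne hj, Function.update_of_ne hj]
            show (if j < s then gb (fun c => (B j).count c) (D j) else B j) = _
            by_cases hjs : j < s
            · rw [if_pos hjs, if_pos (by omega)]
            · rw [if_neg hjs, if_neg (by omega)]
  obtain ⟨D, hD, hR⟩ := key (k + 1) (le_refl _)
  refine ⟨D, hD, ?_⟩
  unfold gw
  rw [asm_congr (B := fun j => if j < k + 1 then gb (fun c => (B j).count c) (D j) else B j)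
    (B' := fun j => gb ((fun j c => (B j).count c) j) (D j))
    (fun j hj => if_pos (by omega))] at hR
  exact hR

end Pool.Agent.MVO.H16
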