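import Pool.Agent.MVO.StmtsE

/-!
# Squad MVO, row GLA: gathering of one letter in all blocks (helper16)
-/

set_option autoImplicit false

namespace Pool.Agent.MVO.H16

open Pool.Agent.Helper14_MV Pool.Agent.Helper2_MV

theorem gla_rr_trans {β : FIC} {l m n : List ℕ} (h : RR β l m) (h' : RR β m n) : RR β l n :=
  β.trans h h'

/-! ### the words `gF`, `gL` -/

theorem gF_split (c : ℕ) (T A : List ℕ) (hT : c ∉ T) :
    gF c (T ++ c :: A) =
      T ++ List.replicate (A.count c + 1) c ++ A.filter (fun d => decide (d ≠ c)) := by
  have hT' : ∀ a ∈ T, decide (a ≠ c) = true := by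
    intro a ha
    rw [decide_eq_true_eq]
    rintro rfl
    exact hT ha
  unfold gF
  have e1 : List.takeWhile (fun a => decide (a ≠ c)) (c :: A) = [] :=
    List.takeWhile_cons_of_neg (by simp)
  have e2 : List.dropWhile (fun a => decide (a ≠ c)) (c :: A) = c :: A :=
    List.dropWhile_cons_of_neg (by simp)
  have e3 : List.filter (fun a => decide (a ≠ c)) (c :: A) =
      List.filter (fun a => decide (a ≠ c)) A := List.filter_cons_of_neg (by simp)
  rw [List.takeWhile_append_of_pos hT', List.dropWhile_append_of_pos hT', e1, e2, e3,
    List.append_nil, List.count_append, List.count_cons_self, List.count_eq_zero_of_not_mem hT,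
    Nat.zero_add]

theorem gF_not (c : ℕ) (L : List ℕ) (hL : c ∉ L) : gF c L = L := by
  have hT' : ∀ a ∈ L, decide (a ≠ c) = true := by
    intro a ha
    rw [decide_eq_true_eq]
    rintro rfl
    exact hL ha
  unfold gF
  have h1 := List.takeWhile_append_of_pos (l₂ := []) hT'
  have h2 := List.dropWhile_append_of_pos (l₂ := []) hT'
  rw [List.append_nil] at h1 h2
  rw [h1, h2, List.count_eq_zero_of_not_mem hL]
  simp

theorem first_split (c : ℕ) (L : List ℕ) (hL : c ∈ L) :
    ∃ T A : List ℕ, L = T ++ c :: A ∧ c ∉ T := by
  induction L with
  | nil => simp at hL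
  | cons a L ih =>
    by_cases h : a = c
    · subst h
      exact ⟨[], L, rfl, by simp⟩
    · have hc : c ∈ L := by
        rcases List.mem_cons.1 hL with h1 | h1
        · exact absurd h1.symm h
        · exact h1
      obtain ⟨T, A, h1, h2⟩ := ih hc
      refine ⟨a :: T, A, by rw [h1]; rfl, ?_⟩
      rw [List.mem_cons]
      rintro (h3 | h3)
      · exact h h3.symm
      · exact h2 h3

theorem last_split (c : ℕ) (L : List ℕ) (hL : c ∈ L) :
    ∃ A T : List ℕ, L = A ++ c :: T ∧ c ∉ T := by
  obtain ⟨T, A, h1, h2⟩ := first_split c L.reverse (List.mem_reverse.2 hL)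
  refine ⟨A.reverse, T.reverse, ?_, by rwa [List.mem_reverse]⟩
  have h3 := congrArg List.reverse h1
  rw [List.reverse_reverse, List.reverse_append, List.reverse_cons] at h3
  rw [h3, List.append_assoc]
  rfl

theorem gL_split (c : ℕ) (A T : List ℕ) (hT : c ∉ T) :
    gL c (A ++ c :: T) =
      A.filter (fun d => decide (d ≠ c)) ++ List.replicate (A.count c + 1) c ++ T := by
  unfold gL
  have h1 : (A ++ c :: T).reverse = T.reverse ++ c :: A.reverse := by
    rw [List.reverse_append, List.reverse_cons, List.append_assoc]
    rfl
  rw [h1, gF_split c _ _ (by rwa [List.mem_reverse]), List.reverse_append, List.reverse_append,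
    List.reverse_reverse, List.reverse_replicate, List.filter_reverse, List.reverse_reverse,
    List.count_reverse, List.append_assoc]

theorem gL_not (c : ℕ) (L : List ℕ) (hL : c ∉ L) : gL c L = L := by
  unfold gL
  rw [gF_not c _ (by rwa [List.mem_reverse]), List.reverse_reverse]

theorem gF_filter (c : ℕ) (p : ℕ → Bool) (hp : p c = false) (L : List ℕ) :
    (gF c L).filter p = L.filter p := by
  by_cases hL : c ∈ L
  · obtain ⟨T, A, h1, h2⟩ := first_split c L hL
    subst h1
    rw [gF_split c T A h2, List.filter_append, List.filter_append, List.filter_append,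
      List.filter_cons_of_neg (by rw [hp]; simp), List.filter_filter]
    have h3 : (List.replicate (A.count c + 1) c).filter p = [] := by
      rw [List.filter_eq_nil_iff]
      intro a ha
      rw [List.eq_of_mem_replicate ha, hp]
      simp
    rw [h3, List.append_nil]
    congr 1
    apply List.filter_congr
    intro a _
    by_cases ha : a = c
    · rw [ha, hp]; simp
    · simp [ha]
  · rw [gF_not c L hL]

theorem gL_filter (c : ℕ) (p : ℕ → Bool) (hp : p c = false) (L : List ℕ) :
    (gL c L).filter p = L.filter p := by
  unfold gL
  rw [List.filter_reverse, gF_filter c p hp, List.filter_reverse, List.reverse_reverse]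

theorem gF_count (c z : ℕ) (L : List ℕ) : (gF c L).count z = L.count z := by
  by_cases hz : z = c
  · subst hz
    by_cases hL : z ∈ L
    · obtain ⟨T, A, h1, h2⟩ := first_split z L hL
      subst h1
      rw [gF_split z T A h2, List.count_append, List.count_append, List.count_append,
        List.count_cons_self, List.count_replicate_self,
        List.count_eq_zero_of_not_mem (l := List.filter _ _) (by simp)]
      omega
    · rw [gF_not z L hL]
  · have h := gF_filter c (fun d => d == z) (by simpa using (fun h => hz h.symm)) L
    rw [List.count_eq_length_filter, List.count_eq_length_filter, h]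

theorem gL_count (c z : ℕ) (L : List ℕ) : (gL c L).count z = L.count z := by
  unfold gL
  rw [List.count_reverse, gF_count, List.count_reverse]

theorem gA_count (c M z : ℕ) (B : ℕ → List ℕ) (j : ℕ) : (gA c M B j).count z = (B j).count z := by
  unfold gA
  split_ifs
  · exact gF_count c z _
  · exact gL_count c z _

theorem gA_filter (c M : ℕ) (p : ℕ → Bool) (hp : p c = false) (B : ℕ → List ℕ) (j : ℕ) :
    (gA c M B j).filter p = (B j).filter p := by
  unfold gA
  split_ifs
  · exact gF_filter c p hp _
  · exact gL_filter c p hp _

theorem gA_mem (c M z : ℕ) (B : ℕ → List ℕ) (j : ℕ) : z ∈ gA c M B j ↔ z ∈ B j := by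
  rw [← List.count_pos_iff, ← List.count_pos_iff, gA_count]

/-! ### heads and last letters -/

theorem gF_head (c : ℕ) (p : ℕ → Bool) (hp : p c = true) (L : List ℕ) :
    ((gF c L).filter p).head? = (L.filter p).head? := by
  by_cases hL : c ∈ L
  · obtain ⟨T, A, h1, h2⟩ := first_split c L hL
    subst h1
    rw [gF_split c T A h2, List.replicate_succ]
    simp only [List.filter_append, List.filter_cons_of_pos hp, List.head?_append,
      List.cons_append, List.head?_cons, List.append_assoc]
  · rw [gF_not c L hL]

theorem gL_last (c : ℕ) (p : ℕ → Bool) (hp : p c = true) (L : List ℕ) :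
    ((gL c L).filter p).getLast? = (L.filter p).getLast? := by
  unfold gL
  rw [List.filter_reverse, List.getLast?_reverse, gF_head c p hp, List.filter_reverse,
    List.head?_reverse]

theorem asm_filter_congr (k : ℕ) (p : ℕ → Bool) (B B' : ℕ → List ℕ)
    (h : ∀ j ≤ k, (B j).filter p = (B' j).filter p) : (asm k B).filter p = (asm k B').filter p := by
  induction k with
  | zero => exact h 0 (le_refl 0)
  | succ k ih =>
    simp only [asm]
    rw [List.filter_append, List.filter_append, ih (fun j hj => h j (by omega))]
    by_cases hp : p (k + 2) = true
    · rw [List.filter_cons_of_pos hp, List.filter_cons_of_pos hp, h (k + 1) (le_refl _)]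
    · rw [List.filter_cons_of_neg hp, List.filter_cons_of_neg hp, h (k + 1) (le_refl _)]

theorem asm_filter_succ (r : ℕ) (p : ℕ → Bool) (B : ℕ → List ℕ) (hp : p (r + 2) = false) :
    (asm (r + 1) B).filter p = (asm r B).filter p ++ (B (r + 1)).filter p := by
  simp only [asm]
  rw [List.filter_append, List.filter_cons_of_neg (by rw [hp]; simp)]

theorem asm_head (c M k : ℕ) (p : ℕ → Bool) (hp : p c = true)
    (hs : ∀ s, 2 ≤ s → s ≤ k + 1 → p s = false) (B : ℕ → List ℕ)
    (hc : ∃ j < M, c ∈ B j) : ∀ r ≤ k,
      ((asm r (gA c M B)).filter p).head? = ((asm r B).filter p).head? := by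
  intro r
  induction r with
  | zero =>
    intro _
    obtain ⟨j, hj, hcj⟩ := hc
    simp only [asm]
    unfold gA
    rw [if_pos (by omega)]
    exact gF_head c p hp _
  | succ r ih =>
    intro hr
    rw [asm_filter_succ r p _ (hs _ (by omega) (by omega)),
      asm_filter_succ r p _ (hs _ (by omega) (by omega)), List.head?_append, List.head?_append,
      ih (by omega)]
    by_cases hM : r + 1 < M
    · unfold gA
      rw [if_pos hM, gF_head c p hp]
    · obtain ⟨j, hj, hcj⟩ := hc
      have h1 : c ∈ (asm r B).filter p := by
        rw [List.mem_filter]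
        exact ⟨mem_asm.2 (Or.inr ⟨j, by omega, hcj⟩), hp⟩
      obtain ⟨a, L, hL⟩ := List.exists_cons_of_ne_nil (List.ne_nil_of_mem h1)
      rw [hL]
      rfl

theorem asm_last (c M k : ℕ) (p : ℕ → Bool) (hp : p c = true)
    (hs : ∀ s, 2 ≤ s → s ≤ k + 1 → p s = false) (B : ℕ → List ℕ) (hcM : c ∈ B M)
    (hM : ∀ j ≤ k, M < j → c ∉ B j) : ∀ r ≤ k, M ≤ r →
      ((asm r (gA c M B)).filter p).getLast? = ((asm r B).filter p).getLast? := by
  intro r
  have hML : ((gA c M B M).filter p).getLast? = ((B M).filter p).getLast? := by
    unfold gA
    rw [if_neg (by omega)]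
    exact gL_last c p hp _
  induction r with
  | zero =>
    intro _ hM0
    have h0 : M = 0 := by omega
    subst h0
    exact hML
  | succ r ih =>
    intro hr hMr
    rw [asm_filter_succ r p _ (hs _ (by omega) (by omega)),
      asm_filter_succ r p _ (hs _ (by omega) (by omega)), List.getLast?_append,
      List.getLast?_append]
    by_cases h1 : M = r + 1
    · subst h1
      rw [hML]
      have h1 : c ∈ (B (r + 1)).filter p := by
        rw [List.mem_filter]
        exact ⟨hcM, hp⟩
      rw [List.getLast?_eq_some_getLast (List.ne_nil_of_mem h1)]
      rfl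
    · rw [ih (by omega) (by omega)]
      have h2 : gA c M B (r + 1) = B (r + 1) := by
        unfold gA
        rw [if_neg (by omega)]
        exact gL_not c _ (hM _ hr (by omega))
      rw [h2]

/-! ### the local case -/

theorem mvr {β : FIC} (hSG : SgcStmt) (hβ : MVD.Cc β) (hE : MVD.E23d β) (c : ℕ) (q : List ℕ)
    (hq : c ∉ q) : ∀ (D p R : List ℕ), c ∉ D → c ∈ R →
      (∀ z ∈ D ++ R, 2 ≤ (p ++ c :: (D ++ R ++ q)).count z) →
        3 ≤ (p ++ c :: (D ++ R ++ q)).count c →
          RR β (p ++ c :: (D ++ R ++ q)) (p ++ D ++ c :: (R ++ q)) := by
  intro D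
  induction D with
  | nil =>
    intro p R _ _ _ _
    rw [List.append_nil, List.nil_append]
    exact RR.refl _
  | cons d D ih =>
    intro p R hcD hcR hmul h3
    rw [List.mem_cons, not_or] at hcD
    have hcnt : ∀ z, (p ++ d :: c :: ((D ++ R) ++ q)).count z =
        (p ++ c :: ((d :: D) ++ R ++ q)).count z := by
      intro z
      simp only [List.count_append, List.count_cons, List.cons_append]
      omega
    have hstep : RR β (p ++ c :: d :: ((D ++ R) ++ q)) (p ++ d :: c :: ((D ++ R) ++ q)) := by
      by_cases hdp : d ∈ p
      · exact RR.symm ((hSG β hβ p ((D ++ R) ++ q) d c).1 hdp (by simp [hcR]))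
      · have hd2 := hmul d (by simp)
        have hdq : d ∈ (D ++ R) ++ q := by
          rw [← List.count_pos_iff]
          have h4 : (p ++ c :: ((d :: D) ++ R ++ q)).count d = 1 + ((D ++ R) ++ q).count d := by
            simp only [List.count_append, List.cons_append, List.count_cons_self,
              List.count_cons_of_ne hcD.1]
            rw [List.count_eq_zero_of_not_mem hdp]
            omega
          omega
        by_cases hcp : c ∈ p
        · exact (hSG β hβ p ((D ++ R) ++ q) c d).1 hcp hdq
        · refine RR.symm (hE p (D ++ R) q d c (by simp [hcR]) hcp hq hdp ?_ ?_ ?_)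
          · intro z hz
            rw [hcnt]
            exact hmul z (by
              rw [List.cons_append, List.mem_cons]
              exact Or.inr hz)
          · rw [hcnt]
            exact hd2
          · rw [hcnt]
            exact h3
    have h5 := ih (p ++ [d]) R hcD.2 hcR
      (by
        intro z hz
        have h6 := hmul z (by
          rw [List.cons_append, List.mem_cons]
          exact Or.inr hz)
        rw [← hcnt] at h6
        simpa [List.append_assoc] using h6)
      (by
        rw [← hcnt] at h3
        simpa [List.append_assoc] using h3)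
    have e1 : p ++ c :: ((d :: D) ++ R ++ q) = p ++ c :: d :: ((D ++ R) ++ q) := rfl
    have e2 : p ++ [d] ++ c :: (D ++ R ++ q) = p ++ d :: c :: ((D ++ R) ++ q) := by
      rw [List.append_assoc]
      rfl
    have e3 : p ++ [d] ++ D ++ c :: (R ++ q) = p ++ (d :: D) ++ c :: (R ++ q) := by
      simp only [List.append_assoc, List.cons_append, List.nil_append]
    rw [e1]
    rw [e2, e3] at h5
    exact gla_rr_trans hstep h5

theorem gth {β : FIC} (hSG : SgcStmt) (hβ : MVD.Cc β) (hE : MVD.E23d β) (c : ℕ) (q T : List ℕ)
    (hq : c ∉ q) : ∀ (A p : List ℕ) (s : ℕ), 1 ≤ s →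
      (∀ z ∈ A ++ T, 2 ≤ (p ++ A ++ List.replicate s c ++ T ++ q).count z) →
        3 ≤ (p ++ A ++ List.replicate s c ++ T ++ q).count c →
          RR β (p ++ A ++ List.replicate s c ++ T ++ q)
            (p ++ A.filter (fun d => decide (d ≠ c)) ++ List.replicate (A.count c + s) c ++ T ++
              q) := by
  intro A
  induction A with
  | nil =>
    intro p s _ _ _
    rw [List.count_nil, Nat.zero_add]
    exact RR.refl _
  | cons a A ih =>
    intro p s hs hmul h3
    have e0 : p ++ [a] ++ A ++ List.replicate s c ++ T ++ q =
        p ++ (a :: A) ++ List.replicate s c ++ T ++ q := by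
      simp only [List.append_assoc, List.cons_append, List.nil_append]
    have h1 := ih (p ++ [a]) s hs
      (by
        intro z hz
        rw [e0]
        exact hmul z (by
          rw [List.cons_append, List.mem_cons]
          exact Or.inr hz))
      (by rw [e0]; exact h3)
    rw [e0] at h1
    by_cases ha : a = c
    · subst ha
      have hcount : ∀ z, (p ++ a :: (A.filter (fun d => decide (d ≠ a)) ++
          (List.replicate (A.count a + s) a ++ T) ++ q)).count z =
          (p ++ (a :: A) ++ List.replicate s a ++ T ++ q).count z := by
        intro z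
        by_cases hz : z = a
        · subst hz
          simp only [List.count_append, List.count_cons_self, List.count_replicate_self]
          rw [List.count_eq_zero_of_not_mem (l := List.filter _ _) (by simp)]
          omega
        · have h4 : (A.filter (fun d => decide (d ≠ a))).count z = A.count z :=
            List.count_filter (by simp [hz])
          simp only [List.count_append, List.count_cons_of_ne (Ne.symm hz), List.count_replicate]
          rw [h4]
          have h5 : (a == z) = false := by simpa using (Ne.symm hz)
          rw [h5]
          simp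
          omega
      have h2 := mvr hSG hβ hE a q hq (A.filter (fun d => decide (d ≠ a))) p
        (List.replicate (A.count a + s) a ++ T) (by simp)
        (by
          rw [List.mem_append, List.mem_replicate]
          exact Or.inl ⟨by omega, rfl⟩)
        (by
          intro z hz
          rw [hcount]
          by_cases hza : z = a
          · subst hza
            omega
          · refine hmul z ?_
            rw [List.mem_append, List.mem_append, List.mem_replicate, List.mem_filter] at hz
            rw [List.cons_append, List.mem_cons, List.mem_append]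
            rcases hz with h | h | h
            · exact Or.inr (Or.inl h.1)
            · exact Or.inl h.2
            · exact Or.inr (Or.inr h))
        (by rw [hcount]; exact h3)
      refine gla_rr_trans h1 ?_
      have e1 : p ++ [a] ++ A.filter (fun d => decide (d ≠ a)) ++
          List.replicate (A.count a + s) a ++ T ++ q =
          p ++ a :: (A.filter (fun d => decide (d ≠ a)) ++
          (List.replicate (A.count a + s) a ++ T) ++ q) := by
        simp only [List.append_assoc, List.cons_append, List.nil_append]
      rw [e1]
      refine gla_rr_trans h2 ?_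
      have e2 : p ++ A.filter (fun d => decide (d ≠ a)) ++
          a :: (List.replicate (A.count a + s) a ++ T ++ q) =
          p ++ (a :: A).filter (fun d => decide (d ≠ a)) ++
            List.replicate ((a :: A).count a + s) a ++ T ++ q := by
        rw [List.filter_cons_of_neg (by simp), List.count_cons_self,
          (by omega : A.count a + 1 + s = A.count a + s + 1), List.replicate_succ]
        simp only [List.append_assoc, List.cons_append]
      rw [e2]
      exact RR.refl _
    · rw [List.filter_cons_of_pos (by simpa using ha), List.count_cons_of_ne ha]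
      have e1 : p ++ [a] ++ A.filter (fun d => decide (d ≠ c)) ++
          List.replicate (A.count c + s) c ++ T ++ q =
          p ++ a :: A.filter (fun d => decide (d ≠ c)) ++
          List.replicate (A.count c + s) c ++ T ++ q := by
        simp only [List.append_assoc, List.cons_append, List.nil_append]
      rw [← e1]
      exact h1

theorem gla (hSG : SgcStmt) (hNF : NfsStmt) : GlaStmt := by
  intro β hβ k B c M hB hA hc hM hcM hMl halt
  by_cases hnl : ∃ j < M, c ∈ B j
  · refine hNF β hβ k B (gA c M B) hB ?_ (fun j _ z => (gA_count c M z B j).symm) hA ?_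
    · intro j hj z hz
      rw [gA_mem] at hz
      exact hB j hj z hz
    · intro d e hd he
      by_cases hc' : c = d ∨ c = e
      · have hp : (fun x => decide (x = d ∨ x = e)) c = true := by simpa using hc'
        have hs : ∀ s, 2 ≤ s → s ≤ k + 1 → (fun x => decide (x = d ∨ x = e)) s = false := by
          intro s h2 h3
          have h4 : ¬ (s = d ∨ s = e) := by
            rintro (h | h)
            · exact hd ⟨by omega, by omega⟩
            · exact he ⟨by omega, by omega⟩
          simpa using h4
        exact ⟨(asm_head c M k _ hp hs B hnl k (le_refl k)).symm,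
          (asm_last c M k _ hp hs B hcM hMl k (le_refl k) hM).symm⟩
      · have hp : (fun x => decide (x = d ∨ x = e)) c = false := by simpa using hc'
        have h1 : rl d e (asm k B) = rl d e (asm k (gA c M B)) :=
          asm_filter_congr k _ B (gA c M B) (fun j _ => (gA_filter c M _ hp B j).symm)
        rw [h1]
        exact ⟨rfl, rfl⟩
  · obtain ⟨hE, h3⟩ : MVD.E23d β ∧ 3 ≤ deg k (fun j => (B j).count c) := by
      rcases halt with h | h
      · exact absurd h hnl
      · exact h
    have hloc : ∀ j ≤ k, j ≠ M → c ∉ B j := by
      intro j hj hjM hcj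
      by_cases h1 : j < M
      · exact hnl ⟨j, h1, hcj⟩
      · exact hMl j hj (by omega) hcj
    have e1 : asm k (gA c M B) = asm k (Function.update B M (gL c (B M))) := by
      apply asm_congr
      intro j hj
      by_cases hjM : j = M
      · subst hjM
        rw [Function.update_self]
        unfold gA
        rw [if_neg (by omega)]
      · rw [Function.update_of_ne hjM]
        unfold gA
        split_ifs
        · exact gF_not c _ (hloc j hj hjM)
        · exact gL_not c _ (hloc j hj hjM)
    rw [e1, asm_update hM B, asm_split hM B]
    obtain ⟨A, T, hAT, hcT⟩ := last_split c (B M) hcM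
    have hqc : c ∉ suf B M (k - M) := by
      rw [mem_suf]
      rintro (h | ⟨j, h1, h2, h⟩)
      · exact hc ⟨by omega, by omega⟩
      · exact hMl j (by omega) h1 h
    have hword : pre B M ++ A ++ List.replicate 1 c ++ T ++ suf B M (k - M) = asm k B := by
      rw [asm_split hM B, hAT]
      simp only [List.append_assoc, List.cons_append, List.nil_append, List.replicate_one]
    have h5 := gth hSG hβ hE c (suf B M (k - M)) T hqc A (pre B M) 1 (le_refl 1)
      (by
        intro z hz
        rw [hword]
        have hzB : z ∈ B M := by
          rw [hAT, List.mem_append, List.mem_cons]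
          rcases List.mem_append.1 hz with h | h
          · exact Or.inl h
          · exact Or.inr (Or.inr h)
        rw [count_asm (hB M hM z hzB)]
        exact hA M hM z hzB)
      (by
        rw [hword, count_asm hc]
        exact h3)
    rw [hword, asm_split hM B] at h5
    rw [hAT, gL_split c A T hcT]
    rw [hAT] at h5
    simpa only [List.append_assoc] using h5

end Pool.Agent.MVO.H16
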