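import Pool.Agent.MVO.StmtsM

/-!
# Squad MVO, row MRC: the classes and clauses of the mirror image (helper16)
-/

set_option autoImplicit false

namespace Pool.Agent.MVO.H16

open Pool.Agent.Helper14_MV Pool.Agent.Helper2_MV

/-- the exchange of the letters `2` and `5` and of the letters `0` and `3` -/
def sw (i : ℕ) : List ℕ :=
  if i = 0 then [3] else if i = 3 then [0] else if i = 2 then [5] else if i = 5 then [2] else [i]

theorem rr_mir (β : FIC) (l l' : List ℕ) :
    RR (MVD.mir β) l l' ↔ RR β l.reverse l'.reverse := Iff.rfl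

theorem mult_rev {c w : List ℕ} (h : MVD.Mult c w) {c' w' : List ℕ} (hc : c' = c.reverse)
    (hw : w' = w.reverse) : MVD.Mult c' w' := by
  subst hc
  subst hw
  intro a ha
  rw [List.count_reverse]
  exact h a (List.mem_reverse.1 ha)

/-! ### S2, FF, ZZ -/

theorem s2_mir {β : FIC} (h : MVD.S2 β) : MVD.S2 (MVD.mir β) := by
  have h1 := RR.sub (β := β) sw h
  exact h1

theorem ff_mir {β : FIC} (h : MVD.FF β) : MVD.ZZ (MVD.mir β) := by
  intro p q c r x y hm
  rw [rr_mir]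
  have h1 := h r.reverse q.reverse c.reverse p.reverse y x
    (mult_rev hm rfl (by simp [List.append_assoc]))
  simpa [List.append_assoc] using h1

theorem zz_mir {β : FIC} (h : MVD.ZZ β) : MVD.FF (MVD.mir β) := by
  intro p q c r x y hm
  rw [rr_mir]
  have h1 := h r.reverse q.reverse c.reverse p.reverse y x
    (mult_rev hm rfl (by simp [List.append_assoc]))
  simpa [List.append_assoc] using h1

theorem cc_mir {β : FIC} (h : MVD.Cc β) : MVD.Cc (MVD.mir β) :=
  ⟨s2_mir h.1, zz_mir h.2.2, ff_mir h.2.1⟩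

/-! ### E32, E23 -/

theorem cnt_rev (p c q : List ℕ) (x y a : ℕ) :
    (q.reverse ++ (c.reverse ++ x :: y :: p.reverse)).count a =
      (p ++ x :: y :: (c ++ q)).count a := by
  simp only [List.count_append, List.count_cons, List.count_reverse]
  omega

theorem cnt_rev' (p c q : List ℕ) (x y a : ℕ) :
    (q.reverse ++ x :: y :: (c.reverse ++ p.reverse)).count a =
      (p ++ (c ++ x :: y :: q)).count a := by
  simp only [List.count_append, List.count_cons, List.count_reverse]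
  omega

theorem e32_mir {β : FIC} (h : MVD.E32 β) : MVD.E32d (MVD.mir β) := by
  intro p c q x y hy hp hq hx hm h3
  rw [rr_mir]
  have h1 := RR.symm (h q.reverse c.reverse p.reverse x y (by simpa using hy) (by simpa using hq)
    (by simpa using hp) (by simpa using hx)
    (by
      intro a ha
      rw [cnt_rev]
      exact hm a (List.mem_reverse.1 ha))
    (by rw [cnt_rev]; exact h3))
  simpa [List.append_assoc] using h1

theorem e32d_mir {β : FIC} (h : MVD.E32d β) : MVD.E32 (MVD.mir β) := by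
  intro p c q x y hy hp hq hx hm h3
  rw [rr_mir]
  have h1 := RR.symm (h q.reverse c.reverse p.reverse x y (by simpa using hy) (by simpa using hq)
    (by simpa using hp) (by simpa using hx)
    (by
      intro a ha
      rw [cnt_rev']
      exact hm a (List.mem_reverse.1 ha))
    (by rw [cnt_rev']; exact h3))
  simpa [List.append_assoc] using h1

theorem e23_mir {β : FIC} (h : MVD.E23 β) : MVD.E23d (MVD.mir β) := by
  intro p c q x y hy hp hq hx hm h2 h3
  rw [rr_mir]
  have h1 := RR.symm (h q.reverse c.reverse p.reverse x y (by simpa using hy) (by simpa using hq)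
    (by simpa using hp) (by simpa using hx)
    (by
      intro a ha
      rw [cnt_rev]
      exact hm a (List.mem_reverse.1 ha))
    (by rw [cnt_rev]; exact h2) (by rw [cnt_rev]; exact h3))
  simpa [List.append_assoc] using h1

theorem e23d_mir {β : FIC} (h : MVD.E23d β) : MVD.E23 (MVD.mir β) := by
  intro p c q x y hy hp hq hx hm h2 h3
  rw [rr_mir]
  have h1 := RR.symm (h q.reverse c.reverse p.reverse x y (by simpa using hy) (by simpa using hq)
    (by simpa using hp) (by simpa using hx)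
    (by
      intro a ha
      rw [cnt_rev']
      exact hm a (List.mem_reverse.1 ha))
    (by rw [cnt_rev']; exact h2) (by rw [cnt_rev']; exact h3))
  simpa [List.append_assoc] using h1

/-! ### one letter identities -/

section

variable {β : FIC}

theorem bt_ext {ρ : FIC} {k i : ℕ} {a a' b b' : ℕ → ℕ} (ha : ∀ j ≤ k, a j = a' j)
    (hb : ∀ j ≤ k, b j = b' j) (h : Bt ρ k a b i) : Bt ρ k a' b' i := by
  intro e
  have h1 := h e
  unfold Ex w2 at h1 ⊢
  have e1 : ∀ e : ℕ → Bool, asm k (fun j => bl (a j) (b j) (e j)) =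
      asm k (fun j => bl (a' j) (b' j) (e j)) :=
    fun e => asm_congr (fun j hj => by rw [ha j hj, hb j hj])
  rw [← e1, ← e1]
  exact h1

theorem l1_ext {ρ : FIC} {k : ℕ} {a a' b b' : ℕ → ℕ} (ha : ∀ j ≤ k, a j = a' j)
    (hb : ∀ j ≤ k, b j = b' j) (h : (FC.ofFIC ρ).R k a b) : (FC.ofFIC ρ).R k a' b' :=
  (FC.ofFIC ρ).ext ha hb h

theorem rvv_v2 (p q : ℕ) : ∀ j ≤ 1, rvv 1 (v2 p q) j = v2 q p j := by
  intro j hj
  have hj' : j = 0 ∨ j = 1 := by omega
  rcases hj' with rfl | rfl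
  · simp [rvv, v2]
  · simp [rvv, v2]

theorem rvv_v3 (p q r : ℕ) : ∀ j ≤ 2, rvv 2 (v3 p q r) j = v3 r q p j := by
  intro j hj
  have hj' : j = 0 ∨ j = 1 ∨ j = 2 := by omega
  rcases hj' with rfl | rfl | rfl
  · simp [rvv, v3]
  · simp [rvv, v3]
  · simp [rvv, v3]

theorem l1_v2 (hMRT : MrtStmt) (β : FIC) (p q r s : ℕ) :
    (FC.ofFIC (MVD.mir β)).R 1 (v2 p q) (v2 r s) ↔ (FC.ofFIC β).R 1 (v2 q p) (v2 s r) := by
  have h := (hMRT β).1 1 (v2 p q) (v2 r s)
  constructor
  · intro h1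
    exact l1_ext (rvv_v2 p q) (rvv_v2 r s) (h.1 h1)
  · intro h1
    exact h.2 (l1_ext (fun j hj => (rvv_v2 p q j hj).symm) (fun j hj => (rvv_v2 r s j hj).symm) h1)

theorem l1_v3 (hMRT : MrtStmt) (β : FIC) (p q r p' q' r' : ℕ) :
    (FC.ofFIC (MVD.mir β)).R 2 (v3 p q r) (v3 p' q' r') ↔
      (FC.ofFIC β).R 2 (v3 r q p) (v3 r' q' p') := by
  have h := (hMRT β).1 2 (v3 p q r) (v3 p' q' r')
  constructor
  · intro h1
    exact l1_ext (rvv_v3 p q r) (rvv_v3 p' q' r') (h.1 h1)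
  · intro h1
    exact h.2 (l1_ext (fun j hj => (rvv_v3 p q r j hj).symm)
      (fun j hj => (rvv_v3 p' q' r' j hj).symm) h1)

theorem bt_v3 (hMRT : MrtStmt) (β : FIC) (p q r p' q' r' i : ℕ) (hi : i ≤ 2) :
    Bt (MVD.mir β) 2 (v3 p q r) (v3 p' q' r') i ↔ Bt β 2 (v3 r q p) (v3 r' q' p') (2 - i) := by
  have h := (hMRT β).2.1 2 (v3 p q r) (v3 p' q' r') i hi
  constructor
  · intro h1
    exact bt_ext (rvv_v3 p q r) (rvv_v3 p' q' r') (h.1 h1)
  · intro h1
    exact h.2 (bt_ext (fun j hj => (rvv_v3 p q r j hj).symm)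
      (fun j hj => (rvv_v3 p' q' r' j hj).symm) h1)

/-- push of `(2,1) ~ (1,2)` with `0 ↦ 0, 1 ↦ 2` -/
theorem o1_push (R : FC) (h : O1 R) : R.R 2 (v3 2 0 1) (v3 1 0 2) := by
  have h1 := R.push 2 (fun i => if i = 0 then 0 else 2) (k := 1)
    ⟨by intro i j hij hj; split_ifs <;> omega,
      by intro i hi; split_ifs <;> omega⟩ h
  refine R.ext ?_ ?_ h1
  · intro j hj
    have hj' : j = 0 ∨ j = 1 ∨ j = 2 := by omega
    rcases hj' with rfl | rfl | rfl <;> simp [psh, v2, v3, Finset.sum_range_succ]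
  · intro j hj
    have hj' : j = 0 ∨ j = 1 ∨ j = 2 := by omega
    rcases hj' with rfl | rfl | rfl <;> simp [psh, v2, v3, Finset.sum_range_succ]

theorem ii_mir (hMRT : MrtStmt) (β : FIC) (h1 : O1 (FC.ofFIC β)) (h : II (FC.ofFIC β)) :
    II (FC.ofFIC (MVD.mir β)) := by
  unfold II at h ⊢
  rw [l1_v3 hMRT]
  exact (FC.ofFIC β).trans h (o1_push _ h1)

end

theorem mrc (_hMRA : MraStmt) (hMRT : MrtStmt) : MrcStmt := by
  intro β
  have hmm : MVD.mir (MVD.mir β) = β := (hMRT β).2.2.2.1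
  have back : ∀ {P Q : FIC → Prop}, (∀ γ, P γ → Q (MVD.mir γ)) → (P (MVD.mir β) → Q β) := by
    intro P Q h hP
    have h1 := h _ hP
    rw [hmm] at h1
    exact h1
  refine ⟨⟨?_, ?_⟩, ⟨?_, ?_⟩, ⟨?_, ?_⟩, ⟨?_, ?_⟩, ⟨?_, ?_⟩, ⟨?_, ?_⟩, ⟨?_, ?_⟩, ?_, ?_, ?_, ?_,
    ?_, ?_, ?_, ?_, ?_, ?_⟩
  · exact back (P := MVD.Cc) (Q := MVD.Cc) (fun γ h => cc_mir h)
  · exact cc_mir
  · exact fun h => h
  · exact fun h => h
  · exact fun h => h
  · exact fun h => h
  · exact back (P := MVD.E32) (Q := MVD.E32d) (fun γ h => e32_mir h)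
  · exact e32d_mir
  · exact back (P := MVD.E32d) (Q := MVD.E32) (fun γ h => e32d_mir h)
  · exact e32_mir
  · exact back (P := MVD.E23) (Q := MVD.E23d) (fun γ h => e23_mir h)
  · exact e23d_mir
  · exact back (P := MVD.E23d) (Q := MVD.E23) (fun γ h => e23d_mir h)
  · exact e23_mir
  · unfold O1
    rw [l1_v2 hMRT]
    exact ⟨fun h => FC.symm _ h, fun h => FC.symm _ h⟩
  · unfold O2 O3
    rw [l1_v2 hMRT]
    exact ⟨fun h => FC.symm _ h, fun h => FC.symm _ h⟩
  · unfold O2 O3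
    rw [l1_v2 hMRT]
    exact ⟨fun h => FC.symm _ h, fun h => FC.symm _ h⟩
  · unfold O4
    rw [l1_v2 hMRT, l1_v2 hMRT]
    exact ⟨fun h => ⟨FC.symm _ h.2, FC.symm _ h.1⟩, fun h => ⟨FC.symm _ h.2, FC.symm _ h.1⟩⟩
  · rintro h1 (h | h)
    · exact Or.inl (ii_mir hMRT β h1 h)
    · exact Or.inr ((bt_v3 hMRT β 1 2 0 1 0 1 0 (by omega)).2 h)
  · rintro h1 (h | h)
    · exact Or.inl (ii_mir hMRT β h1 h)
    · exact Or.inr ((bt_v3 hMRT β 0 2 1 1 0 1 2 (by omega)).2 h)
  · rintro (h | h)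
    · refine Or.inl ?_
      unfold JJd
      rw [l1_v3 hMRT]
      exact h
    · exact Or.inr ((bt_v3 hMRT β 1 0 2 1 1 0 0 (by omega)).2 h)
  · rintro (h | h)
    · refine Or.inl ?_
      unfold JJ
      rw [l1_v3 hMRT]
      exact h
    · exact Or.inr ((bt_v3 hMRT β 2 0 1 0 1 1 2 (by omega)).2 h)
  · rintro ⟨K, hK⟩
    refine ⟨K, fun m hm => ?_⟩
    rw [rr_mir]
    have h1 := RR.symm (hK m hm)
    simpa using h1
  · intro h
    have h1 := op_modF h
    have h2 : ModF (MVD.mir (MVD.mir β)) := h1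
    rw [hmm] at h2
    exact h2

end Pool.Agent.MVO.H16
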