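import Pool.Agent.MVO.StmtsF
import Pool.Agent.Helper98_MVO.TCA

set_option autoImplicit false

/-! Row TFA of the squad MVO: tightness for first blocks over `O1` (adaptation of row TCA of
helper98). -/

namespace Pool.Agent.MVO.H16

open Pool.Agent.Helper14_MV Pool.Agent.Helper2_MV Pool.Agent.MVO
open Pool.Agent.MVO.H65.TacRow (rr_mono mem_sp' max_of le_of_max)
open Pool.Agent.MVO.H34 (deg_psh sp_nonempty card_sp_le)
open Pool.Agent.MVO.H78.TaaRow (bt_mono min_of psh_gt tb3 bmap_tb3 w3 psh_tb3 deg_w3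
  sp_w3_sub w3_min w3_max red1 exists_min w3_le)
open Pool.Agent.MVO.H98.TcaRow (psh_ge)

namespace TfaRow

/-- push and add -/
theorem liftN (hfcn : FcnStmt) {ρ : FIC} (hc : MVD.Cc ρ) {K k I : ℕ} {f A B c b : ℕ → ℕ}
    (hf : BMap K k f) (hI : I ≤ K) (hA1 : 1 ≤ A I) (hB1 : 1 ≤ B I)
    (hz : ∀ j < I, A j = 0 ∧ B j = 0) (hAb : ∃ j ≤ k, f I < j ∧ 1 ≤ psh K f A j)
    (hBb : ∃ j ≤ k, f I < j ∧ 1 ≤ psh K f B j) (hzf : ∀ j < f I, psh K f A j = 0 ∧ psh K f B j = 0)
    (h : Bt ρ K A B I) (ha : ∀ j ≤ k, psh K f A j ≤ c j) (hb : ∀ j ≤ k, psh K f B j ≤ b j) :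
    Bt ρ k c b (f I) := by
  obtain ⟨_, _, N3, N4, _⟩ := hfcn ρ hc
  have h1 := N4 K k f A B I hf hI hA1 hB1 hz hAb hBb h
  have h2 := N3 k (psh K f A) (psh K f B) (fun t => c t - psh K f A t)
    (fun t => b t - psh K f B t) (f I) (hf.le I hI) (hA1.trans (psh_ge hI))
    (hB1.trans (psh_ge hI)) hzf hAb hBb h1
  have e : ∀ (A c : ℕ → ℕ), (∀ j ≤ k, psh K f A j ≤ c j) → ∀ t ≤ k,
      (psh K f A t + (c t - psh K f A t)) = c t := by
    intro A c hA t ht
    have := hA t ht
    omega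
  intro e'
  have h3 := h2 e'
  unfold Ex w2 at h3 ⊢
  have e1 : ∀ e' : ℕ → Bool, asm k (fun j => bl (psh K f A j + (c j - psh K f A j))
      (psh K f B j + (b j - psh K f B j)) (e' j)) = asm k (fun j => bl (c j) (b j) (e' j)) :=
    fun e' => asm_congr (fun j hj => by rw [e A c ha j hj, e B b hb j hj])
  rw [e1, e1] at h3
  exact h3

theorem two_le_deg {k i q : ℕ} {b : ℕ → ℕ} (hi : i ≤ k) (hq : q ≤ k) (hiq : i ≠ q) :
    b i + b q ≤ deg k b := by
  unfold deg
  have h : ({i, q} : Finset ℕ) ⊆ Finset.range (k + 1) := by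
    intro j hj
    rw [Finset.mem_insert, Finset.mem_singleton] at hj
    rw [Finset.mem_range]
    omega
  have h1 := Finset.sum_le_sum_of_subset (f := b) h
  rw [Finset.sum_pair hiq] at h1
  exact h1

end TfaRow

open TfaRow

/-- **TFA** -/
theorem tfa (oaa : OaaStmt) (oar : OarStmt) (fcn : FcnStmt) : TfaStmt := by
  intro β ρ hle hc ho1 hcl k a a' b i hd3 hdd hL hLβ hi hja hqb hz ha1 hb1
  obtain ⟨ja, hjak, hija, haja⟩ := hja
  obtain ⟨q, hqk, hpq, hbq⟩ := hqb
  have ho1ρ : O1 (FC.ofFIC ρ) := rr_mono hle ho1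
  have hS : sp k a ≠ sp k a' := fun h => hLβ (oaa (FC.ofFIC β) k a a' (Or.inl ho1) hdd h)
  obtain ⟨N0, N2, -⟩ := fcn ρ hc
  have hbdeg : 2 ≤ deg k b := by
    have := two_le_deg (b := b) hi hqk (by omega)
    omega
  have hd : 2 ≤ deg k a := by omega
  -- rule (R)
  have R : ∀ a'' : ℕ → ℕ, L1 ρ k a a'' → 2 ≤ deg k a'' →
      (a'' i = 0 ∨ (∃ j < i, 1 ≤ a'' j) ∨ (∃ j ≤ k, j ≠ i ∧ 1 ≤ a'' j ∧ 1 ≤ b j)) →
      Bt ρ k a b i := by
    intro a'' h1 h3 h4
    refine N2 k a a'' b i h1 (N0 k a'' b i h3 hbdeg hi ⟨q, hqk, hpq, hbq⟩ ?_)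
    rcases h4 with h4 | h4 | h4
    · exact Or.inl h4
    · exact Or.inr (Or.inl h4)
    · exact Or.inr (Or.inr (Or.inl h4))
  obtain ⟨hIP, -, hAP, -⟩ := oar (FC.ofFIC ρ) k a a' (Or.inl ho1ρ) hd hdd hL hS
  have hcd : (sp k a).card ≤ deg k a := card_sp_le k a
  have hcd' : (sp k a').card ≤ deg k a' := card_sp_le k a'
  obtain ⟨N, hN⟩ : ∃ N, N = max (sp k a).card (sp k a').card := ⟨_, rfl⟩
  rw [← hN] at hIP
  have h5 := le_max_left (sp k a).card (sp k a').card
  have h6 := le_max_right (sp k a).card (sp k a').card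
  have hia : i ∈ sp k a := mem_sp'.2 ⟨hi, by omega⟩
  have hjaS : ja ∈ sp k a := mem_sp'.2 ⟨hjak, by omega⟩
  have hc2 : 2 ≤ (sp k a).card := by
    have h7 : ({i, ja} : Finset ℕ) ⊆ sp k a := by
      intro j hj
      rw [Finset.mem_insert, Finset.mem_singleton] at hj
      rcases hj with rfl | rfl
      · exact hia
      · exact hjaS
    have h8 := Finset.card_le_card h7
    rw [Finset.card_pair (by omega)] at h8
    exact h8
  obtain ⟨d, hdeq⟩ : ∃ d, d = deg k a := ⟨_, rfl⟩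
  rw [← hdeq] at hd hd3 hIP hAP hcd
  have hca : (sp k a).card ≤ N := by omega
  have hN2 : 2 ≤ N := by omega
  have hNd : N ≤ d := by
    rw [hN]
    exact max_le hcd (by omega)
  -- the ends of the support
  have hpmin : ∀ j ∈ sp k a, i ≤ j := by
    intro j hj
    by_contra hlt
    exact (mem_sp'.1 hj).2 (hz j (by omega)).1
  obtain ⟨r, hr, hrmax⟩ := H65.TacRow.exists_max ⟨i, hia⟩
  have hmina : (sp k a).min = (i : WithTop ℕ) := min_of hia hpmin
  have hmaxa : (sp k a).max = (r : WithBot ℕ) := max_of hr hrmax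
  have hrk : r ≤ k := (mem_sp'.1 hr).1
  have hplt : i < r := lt_of_lt_of_le hija (hrmax ja hjaS)
  -- the first block of `a'`
  by_cases ha0 : a' i = 0
  · exact R a' hL (by omega) (Or.inl ha0)
  by_cases hab : ∃ j < i, 1 ≤ a' j
  · exact R a' hL (by omega) (Or.inr (Or.inl hab))
  have hia' : i ∈ sp k a' := mem_sp'.2 ⟨hi, ha0⟩
  have hpmin' : ∀ j ∈ sp k a', i ≤ j := by
    intro j hj
    by_contra hlt
    exact hab ⟨j, by omega, Nat.one_le_iff_ne_zero.2 (mem_sp'.1 hj).2⟩
  -- vectors with the same ends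
  have toc : ∀ s x y z, i ≤ s → s ≤ r → 1 ≤ x → 1 ≤ z → x + y + z = d →
      (sp k (w3 i s r x y z)).card ≤ N → L1 ρ k a (w3 i s r x y z) := by
    intro s x y z hq1 hq2 hx hz hs hcard
    refine hIP k a _ hdeq.symm ?_ hca hcard ?_ ?_
    · rw [deg_w3 hi (by omega) hrk]
      exact hs
    · rw [hmina, w3_min hi hq1 hplt.le hx]
    · rw [hmaxa, w3_max hrk hq2 hplt.le hz]
  have card2 : ∀ (s t x z : ℕ), (sp k (w3 i i t x 0 z)).card ≤ 2 := by
    intro s t x z
    have h7 : sp k (w3 i i t x 0 z) ⊆ {i, t} := by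
      intro j hj
      have h := sp_w3_sub hj
      rw [Finset.mem_insert, Finset.mem_insert, Finset.mem_singleton] at h
      rw [Finset.mem_insert, Finset.mem_singleton]
      omega
    exact (Finset.card_le_card h7).trans Finset.card_le_two
  by_cases hmax : (sp k a).max = (sp k a').max
  swap
  · -- different last blocks
    have hA := hAP hmax (by omega)
    have h7 : L1 ρ k a (w3 i i q (d - 1) 0 1) := by
      refine (FC.ofFIC ρ).trans (toc i (d - 1) 0 1 le_rfl hplt.le (by omega) le_rfl (by omega)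
        ((card2 0 r _ _).trans hN2)) (hA k _ _ ?_ ?_ (card2 0 r _ _) (card2 0 q _ _) ?_)
      · rw [deg_w3 hi hi hrk]
        omega
      · rw [deg_w3 hi hi hqk]
        omega
      · rw [w3_min hi le_rfl hplt.le (by omega), w3_min hi le_rfl hpq.le (by omega)]
    refine R _ h7 ?_ (Or.inr (Or.inr ⟨q, hqk, by omega, ?_, hbq⟩))
    · rw [deg_w3 hi hi hqk]
      omega
    · unfold w3
      rw [if_pos (rfl : q = q)]
      omega
  -- the same last block
  have hr' : r ∈ sp k a' := by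
    rw [hmaxa] at hmax
    exact Finset.mem_of_max hmax.symm
  have hrmax' : ∀ j ∈ sp k a', j ≤ r := by
    intro j hj
    rw [hmaxa] at hmax
    exact le_of_max hmax.symm hj
  have hN3 : 3 ≤ N := by
    by_contra hlt
    apply hS
    have hset : ∀ {P : Finset ℕ}, i ∈ P → r ∈ P → P.card ≤ 2 → P = {i, r} := by
      intro P h7 h8 h9
      symm
      apply Finset.eq_of_subset_of_card_le
      · intro j hj
        rw [Finset.mem_insert, Finset.mem_singleton] at hj
        rcases hj with rfl | rfl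
        · exact h7
        · exact h8
      · rw [Finset.card_pair (by omega)]
        exact h9
    rw [hset hia hr (by omega), hset hia' hr' (by omega)]
  have hII : ¬ II (FC.ofFIC β) := by
    intro hII
    apply hLβ
    have h7 := (mem_sp'.1 hr).2
    have h8 := (mem_sp'.1 hr').2
    obtain ⟨c, e1, e2, e3⟩ := red1 hII hplt hrk _ a le_rfl (by omega) (by omega) hpmin hrmax
    obtain ⟨c', e1', e2', e3'⟩ := red1 hII hplt hrk _ a' le_rfl (by omega) (by omega) hpmin'
      hrmax'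
    have e4 := oaa (FC.ofFIC β) k c c' (Or.inl ho1) (by omega) (by rw [e3, e3'])
    exact (FC.ofFIC β).trans e1 ((FC.ofFIC β).trans e4 ((FC.ofFIC β).symm e1'))
  have g1 : Bt ρ 2 (v3 1 2 0) (v3 1 0 1) 0 := bt_mono hle (hcl.resolve_left hII)
  rcases Nat.lt_or_ge r q with hrq | hqr
  · refine N2 k a _ b i (toc i 1 0 (d - 1) le_rfl hplt.le le_rfl (by omega) (by omega)
      ((card2 0 r _ _).trans hN2)) ?_
    have hc1 : w3 i i r 1 0 (d - 1) i = 1 := by
      unfold w3
      rw [if_pos rfl, if_pos rfl, if_neg (by omega)]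
    have hc2 : w3 i i r 1 0 (d - 1) r = d - 1 := by
      unfold w3
      rw [if_neg (by omega), if_neg (by omega), if_pos rfl]
      omega
    have hpA : ∀ j, psh 2 (tb3 i r q) (v3 1 2 0) j = w3 i r q 1 2 0 j := psh_tb3 i r q 1 2 0
    have hpB : ∀ j, psh 2 (tb3 i r q) (v3 1 0 1) j = w3 i r q 1 0 1 j := psh_tb3 i r q 1 0 1
    have h7 := liftN fcn hc (c := w3 i i r 1 0 (d - 1)) (b := b)
      (bmap_tb3 hplt.le hrq.le hqk) (Nat.zero_le 2)
      (le_of_eq rfl) (le_of_eq rfl) (fun j hj => absurd hj (Nat.not_lt_zero j))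
      ⟨r, hrk, hplt, by
        rw [hpA]
        unfold w3
        rw [if_pos (rfl : r = r)]
        omega⟩
      ⟨q, hqk, hpq, by
        rw [hpB]
        unfold w3
        rw [if_pos (rfl : q = q)]
        omega⟩
      (fun j hj => by
        have hj' : j < i := hj
        rw [hpA, hpB]
        unfold w3
        rw [if_neg (by omega), if_neg (by omega), if_neg (by omega), if_neg (by omega),
          if_neg (by omega)]
        exact ⟨rfl, rfl⟩)
      g1
      (fun t _ => by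
        rw [psh_tb3]
        exact w3_le hplt hrq (by rw [hc1]) (by rw [hc2]; omega) (Nat.zero_le _) t)
      (fun t _ => by
        rw [psh_tb3]
        exact w3_le hplt hrq hb1 (Nat.zero_le _) (by omega) t)
    exact h7
  · refine R (w3 i q r (d - 2) 1 1) (toc q (d - 2) 1 1 hpq.le hqr (by omega) le_rfl (by omega)
      ((Finset.card_le_card sp_w3_sub).trans (Finset.card_le_three.trans hN3)))
      ?_ (Or.inr (Or.inr ⟨q, hqk, by omega, ?_, hbq⟩))
    · rw [deg_w3 hi hqk hrk]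
      omega
    · unfold w3
      rw [if_pos (rfl : q = q)]
      omega

end Pool.Agent.MVO.H16
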